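import Pool.Agent.H2.SPH.Mon

/-!
# [H2 SPH] The action on the pairs and left cancellation

`stp y (w, n) = (y * mx y w, tau ((mx y w)⁻¹ w) n)`. `act` is the action of the Artin monoid on the pairs. `g = tau (alpha g) * omega g`.
Left cancellation: the letter `i` can be removed from the pair of `ag i * a`. `braid_dvd`: two different letters which divide `g` from
the left: the braid word divides `g`.
-/

set_option autoImplicit false

namespace Pool.Agent.H2.SPH

open CoxeterSystem Pool.H8.CDW Pool.Agent.H52.PAG Pool.Agent.H75.INF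

variable {B W : Type*} [Group W] {M : CoxeterMatrix B} (cs : CoxeterSystem M W)

/-- one step -/
noncomputable def stp (y : W) (p : W × AM M) : W × AM M :=
  (y * mx cs y p.1, tau cs ((mx cs y p.1)⁻¹ * p.1) * p.2)

theorem stp_one (p : W × AM M) : stp cs 1 p = p := by
  unfold stp
  rw [mx_one_left, one_mul, inv_mul_cancel, tau_one, one_mul]

theorem stp_mul {y₁ y₂ : W} (h : cs.length (y₁ * y₂) = cs.length y₁ + cs.length y₂) (p : W × AM M) :
    stp cs (y₁ * y₂) p = stp cs y₁ (stp cs y₂ p) := by
  obtain ⟨w, n⟩ := p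
  have h1 := mx_mul h w
  have h2 : Pf cs (mx cs (y₁ * y₂) w) (mx cs y₂ w) := by
    refine mx_max (mx_pf _ _) ?_
    have a0 := mx_len (cs := cs) (y₁ * y₂) w
    have a1 := cs.length_mul_le y₁ (y₂ * mx cs (y₁ * y₂) w)
    have a2 := cs.length_mul_le y₂ (mx cs (y₁ * y₂) w)
    rw [mul_assoc] at a0
    omega
  have h3 := h2.split (mx_pf (cs := cs) y₂ w)
  show (y₁ * y₂ * mx cs (y₁ * y₂) w, tau cs ((mx cs (y₁ * y₂) w)⁻¹ * w) * n) =
    (y₁ * mx cs y₁ (y₂ * mx cs y₂ w), tau cs ((mx cs y₁ (y₂ * mx cs y₂ w))⁻¹ * (y₂ * mx cs y₂ w)) *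
      (tau cs ((mx cs y₂ w)⁻¹ * w) * n))
  rw [h1]
  have e1 : (y₂ * mx cs (y₁ * y₂) w)⁻¹ * (y₂ * mx cs y₂ w) = (mx cs (y₁ * y₂) w)⁻¹ * mx cs y₂ w := by group
  have e2 : (mx cs (y₁ * y₂) w)⁻¹ * mx cs y₂ w * ((mx cs y₂ w)⁻¹ * w) = (mx cs (y₁ * y₂) w)⁻¹ * w := by group
  rw [e1, ← mul_assoc (tau cs _) (tau cs _) n, ← tau_mul (by rw [e2]; exact h3), e2, mul_assoc]

/-- the step as an element of the monoid of the maps -/
noncomputable def stpE (y : W) : Function.End (W × AM M) := stp cs y

theorem word_stp {ω : List B} (h : cs.IsReduced ω) :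
    ((ω.map fun i => stpE cs (cs.simple i)).prod) = stpE cs (cs.wordProd ω) := by
  induction ω with
  | nil =>
    rw [wordProd_nil, List.map_nil, List.prod_nil]
    funext p
    exact (stp_one cs p).symm
  | cons i ω ih =>
    have h1 := d2_red_tail cs h
    rw [List.map_cons, List.prod_cons, ih h1]
    funext p
    show stp cs (cs.simple i) (stp cs (cs.wordProd ω) p) = stp cs (cs.wordProd (i :: ω)) p
    have h2 : cs.length (cs.simple i * cs.wordProd ω) = cs.length (cs.simple i) + cs.length (cs.wordProd ω) := by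
      rw [← wordProd_cons, h.eq, h1.eq, cs.length_simple, List.length_cons, add_comm]
    rw [← stp_mul cs h2, wordProd_cons]

private theorem map_altWord {N : Type*} [Monoid N] (f : B → N) (i j : B) (n : ℕ) :
    ((alternatingWord i j n).map f).prod = if Even n then alt (f i) (f j) n else alt (f j) (f i) n := by
  induction n with
  | zero => simp [alternatingWord, alt]
  | succ n ih =>
    rw [alternatingWord_succ', List.map_cons, List.prod_cons, ih]
    by_cases h : Even n
    · have h1 : ¬ Even (n + 1) := by
        rw [Nat.even_add_one]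
        exact fun h2 => h2 h
      rw [if_pos h, if_pos h, if_neg h1, alt]
    · have h1 : Even (n + 1) := Nat.even_add_one.2 h
      rw [if_neg h, if_neg h, if_pos h1, alt]

/-- the braid relation from the products over the two braid words -/
theorem alt_of_words {N : Type*} [Monoid N] (f : B → N) {i j : B}
    (h : ((braidWord M i j).map f).prod = ((braidWord M j i).map f).prod) :
    alt (f i) (f j) (M i j) = alt (f j) (f i) (M i j) := by
  unfold braidWord at h
  rw [map_altWord, map_altWord, M.symmetric j i] at h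
  by_cases he : Even (M.M i j)
  · rw [if_pos he, if_pos he] at h
    exact h
  · rw [if_neg he, if_neg he] at h
    exact h.symm

theorem tau_wb {i j : B} (hij : i ≠ j) (hM : M i j ≠ 0) :
    tau cs (wb cs i j) = alt (ag M i) (ag M j) (M i j) := by
  have hr := (alt_reduced (cs := cs) hij hM (M i j) le_rfl).1
  have h1 : tau cs (wb cs i j) = ((braidWord M i j).map (ag M)).prod := tau_eq cs hr
  rw [h1]
  unfold braidWord
  rw [map_altWord]
  by_cases he : Even (M.M i j)
  · rw [if_pos he]
  · rw [if_neg he]
    exact (ag_rel hM).symm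

/-- the action -/
noncomputable def act : AM M →* Function.End (W × AM M) :=
  alift (fun i => stpE cs (cs.simple i)) fun i j hM => by
    by_cases hij : i = j
    · subst hij
      rfl
    refine alt_of_words (fun i => stpE cs (cs.simple i)) ?_
    have hs : M j i = M i j := M.symmetric j i
    have h1 := alt_reduced (cs := cs) hij hM (M i j) le_rfl
    have r1 : cs.IsReduced (braidWord M i j) := h1.1
    have r2 : cs.IsReduced (braidWord M j i) := by
      unfold braidWord
      rw [hs]
      exact h1.2
    rw [word_stp cs r1, word_stp cs r2, cs.wordProd_braidWord_eq]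

theorem act_ag_mul (i : B) (x : AM M) (p : W × AM M) : act cs (ag M i * x) p = stp cs (cs.simple i) (act cs x p) := by
  rw [map_mul]
  rfl

theorem act_one (p : W × AM M) : act cs (1 : AM M) p = p := by
  rw [map_one]
  rfl

/-- the value of a pair -/
theorem act_val (g : AM M) (p : W × AM M) :
    tau cs (act cs g p).1 * (act cs g p).2 = g * (tau cs p.1 * p.2) := by
  induction g using am_ind with
  | h1 => rw [act_one, one_mul]
  | h i x ih =>
    rw [act_ag_mul, mul_assoc, ← ih]
    obtain ⟨w, n⟩ := act cs x p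
    show tau cs (cs.simple i * mx cs (cs.simple i) w) * (tau cs ((mx cs (cs.simple i) w)⁻¹ * w) * n) =
      ag M i * (tau cs w * n)
    have h1 := mx_len (cs := cs) (cs.simple i) w
    have h2 : Pf cs (mx cs (cs.simple i) w) w := mx_pf _ _
    have h3 : tau cs w = tau cs (mx cs (cs.simple i) w) * tau cs ((mx cs (cs.simple i) w)⁻¹ * w) := by
      rw [← tau_mul (by rw [mul_inv_cancel_left]; exact h2.symm), mul_inv_cancel_left]
    rw [tau_mul h1, tau_simple, h3]
    simp only [mul_assoc]

/-- the largest left divisor in `W` -/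
noncomputable def alpha (g : AM M) : W := (act cs g (1, 1)).1

/-- the rest -/
noncomputable def omega (g : AM M) : AM M := (act cs g (1, 1)).2

theorem alpha_omega (g : AM M) : tau cs (alpha cs g) * omega cs g = g := by
  have h := act_val cs g (1, 1)
  rw [tau_one, one_mul, mul_one] at h
  exact h

theorem alpha_desc (i : B) (x : AM M) : cs.IsLeftDescent (alpha cs (ag M i * x)) i := by
  have h1 : alpha cs (ag M i * x) = cs.simple i * mx cs (cs.simple i) (alpha cs x) := by
    unfold alpha
    rw [act_ag_mul]
    rfl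
  have h2 := mx_len (cs := cs) (cs.simple i) (alpha cs x)
  rw [cs.length_simple] at h2
  unfold CoxeterSystem.IsLeftDescent
  rw [h1, cs.simple_mul_simple_cancel_left, h2]
  omega

include cs in
theorem ag_cancel {i : B} {a b : AM M} (h : ag M i * a = ag M i * b) : a = b := by
  have key : ∀ a : AM M, tau cs (cs.simple i * (act cs (ag M i * a) (1, 1)).1) *
      (act cs (ag M i * a) (1, 1)).2 = a := by
    intro a
    rw [act_ag_mul]
    have h0 := alpha_omega cs a
    unfold alpha omega at h0
    revert h0
    generalize act cs a (1, 1) = q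
    intro h0
    obtain ⟨w, n⟩ := q
    show tau cs (cs.simple i * (cs.simple i * mx cs (cs.simple i) w)) * (tau cs ((mx cs (cs.simple i) w)⁻¹ * w) * n) = a
    have h2 : Pf cs (mx cs (cs.simple i) w) w := mx_pf _ _
    rw [cs.simple_mul_simple_cancel_left, ← mul_assoc, ← tau_mul (by rw [mul_inv_cancel_left]; exact h2.symm),
      mul_inv_cancel_left]
    exact h0
  rw [← key a, ← key b, h]

include cs in
theorem am_left_cancel {g a b : AM M} (h : g * a = g * b) : a = b := by
  induction g using am_ind with
  | h1 => rwa [one_mul, one_mul] at h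
  | h i x ih =>
    rw [mul_assoc, mul_assoc] at h
    exact ih (ag_cancel cs h)

include cs in
theorem am_right_cancel {g a b : AM M} (h : a * g = b * g) : a = b := by
  have h1 := congrArg rev h
  rw [rev_mul, rev_mul] at h1
  exact rev_inj (am_left_cancel cs h1)

include cs in
theorem braid_dvd {i j : B} (hij : i ≠ j) {g : AM M} (hi : ag M i ∣ g) (hj : ag M j ∣ g) :
    M i j ≠ 0 ∧ alt (ag M i) (ag M j) (M i j) ∣ g := by
  obtain ⟨x, hx⟩ := hi
  obtain ⟨y, hy⟩ := hj
  have d1 : cs.IsLeftDescent (alpha cs g) i := by rw [hx]; exact alpha_desc cs i x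
  have d2 : cs.IsLeftDescent (alpha cs g) j := by rw [hy]; exact alpha_desc cs j y
  have hM := ne_zero_of_descents cs hij d1 d2
  obtain ⟨u, hu1, hu2⟩ := two_descents cs hij hM d1 d2
  refine ⟨hM, tau cs u * omega cs g, ?_⟩
  have hu1' : alpha cs g = wb cs i j * u := hu1
  have h1 : cs.length (wb cs i j * u) = cs.length (wb cs i j) + cs.length u := by
    rw [← hu1', wb_len hij hM, hu2]
  rw [← tau_wb cs hij hM, ← mul_assoc, ← tau_mul h1, ← hu1', alpha_omega]

end Pool.Agent.H2.SPH
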