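import Pool.Agent.H2.SPH.Lcm

/-!
# [H2 SPH] The element `Δ` for finite Coxeter groups

`exists_longest`: every element is a prefix of `w₀`. `Δ = tau w₀`, `ag i * Δ = Δ * ag j`; every element divides a power of `Δ`; common
multiples exist.
-/

set_option autoImplicit false

namespace Pool.Agent.H2.SPH

open CoxeterSystem Pool.H8.CDW Pool.Agent.H52.PAG Pool.Agent.H75.INF

variable {B W : Type*} [Group W] [Finite W] {M : CoxeterMatrix B} (cs : CoxeterSystem M W)

include cs in
theorem label_ne_zero (i j : B) : M i j ≠ 0 := by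
  intro h
  by_cases hij : i = j
  · subst hij
    have h1 : M i i = 1 := M.diagonal i
    omega
  · have h1 : IsOfFinOrder (cs.simple i * cs.simple j) := isOfFinOrder_of_finite _
    obtain ⟨n, hn, h2⟩ := isOfFinOrder_iff_pow_eq_one.1 h1
    exact pow_ne_one' cs hij h hn h2

theorem exists_longest : ∃ w₀ : W, ∀ w, Pf cs w w₀ := by
  classical
  obtain ⟨K, hK⟩ : ∃ K, ∀ w : W, cs.length w ≤ K := by
    obtain ⟨K, hK⟩ := (Set.finite_range cs.length).bddAbove
    exact ⟨K, fun w => hK ⟨w, rfl⟩⟩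
  obtain ⟨m, -, hm⟩ := exists_top (cs := cs) (E := fun _ => True) trivial (fun _ _ _ _ => trivial)
    (fun w _ => hK w) (by
      intro v s t hst _ _ h1 h2
      have hM := label_ne_zero cs s t
      exact ⟨hM, trivial, add_wb hst hM h1 h2⟩)
  exact ⟨m, fun w => hm w trivial⟩

/-- the longest element -/
noncomputable def w0 : W := (exists_longest cs).choose

theorem pf_w0 (w : W) : Pf cs w (w0 cs) := (exists_longest cs).choose_spec w

theorem w0_inv : (w0 cs)⁻¹ = w0 cs :=
  (pf_w0 cs (w0 cs)⁻¹).eq_of_le (by rw [cs.length_inv])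

theorem w0_sq : w0 cs * w0 cs = 1 := by
  have h := mul_inv_cancel (w0 cs)
  rwa [w0_inv] at h

/-- `ℓ (w w₀) = ℓ w₀ - ℓ w` -/
theorem len_mul_w0 (w : W) : cs.length w + cs.length (w * w0 cs) = cs.length (w0 cs) := by
  have h := pf_w0 cs w⁻¹
  unfold Pf at h
  rwa [cs.length_inv, inv_inv] at h

theorem len_w0_mul (w : W) : cs.length w + cs.length (w0 cs * w) = cs.length (w0 cs) := by
  have h := len_mul_w0 cs w⁻¹
  have e : (w⁻¹ * w0 cs)⁻¹ = w0 cs * w := by rw [mul_inv_rev, inv_inv, w0_inv]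
  rwa [cs.length_inv, ← cs.length_inv (w⁻¹ * w0 cs), e] at h

/-- the conjugation by `w₀` permutes the simple reflections -/
theorem exists_conj (i : B) : ∃ j, cs.simple i * w0 cs = w0 cs * cs.simple j := by
  have h1 := len_mul_w0 cs (cs.simple i)
  have h2 := len_w0_mul cs (cs.simple i * w0 cs)
  rw [cs.length_simple] at h1
  have h3 : cs.length (w0 cs * (cs.simple i * w0 cs)) = 1 := by omega
  obtain ⟨j, hj⟩ := cs.length_eq_one_iff.1 h3
  refine ⟨j, ?_⟩
  rw [← hj, ← mul_assoc, w0_sq, one_mul]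

/-- the fundamental element -/
noncomputable def dl : AM M := tau cs (w0 cs)

theorem tau_dvd_dl (w : W) : tau cs w ∣ dl cs := by
  refine ⟨tau cs (w⁻¹ * w0 cs), ?_⟩
  unfold dl
  rw [← tau_mul (by rw [mul_inv_cancel_left]; exact (pf_w0 cs w).symm), mul_inv_cancel_left]

theorem ag_dvd_dl (i : B) : ag M i ∣ dl cs := by
  have h := tau_dvd_dl cs (cs.simple i)
  rwa [tau_simple] at h

/-- `ag i * Δ = Δ * ag j` -/
theorem ag_mul_dl (i : B) : ∃ j, ag M i * dl cs = dl cs * ag M j := by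
  obtain ⟨j, hj⟩ := exists_conj cs i
  have h1 := len_mul_w0 cs (cs.simple i)
  rw [cs.length_simple] at h1
  have e1 : cs.simple i * (cs.simple i * w0 cs) = w0 cs := cs.simple_mul_simple_cancel_left i
  have e2 : cs.simple i * w0 cs * cs.simple j = w0 cs := by
    rw [hj, cs.simple_mul_simple_cancel_right]
  have h2 : dl cs = ag M i * tau cs (cs.simple i * w0 cs) := by
    have h3 := tau_mul (cs := cs) (u := cs.simple i) (v := cs.simple i * w0 cs)
      (by rw [e1, cs.length_simple]; omega)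
    rw [e1, tau_simple] at h3
    exact h3
  have h4 : dl cs = tau cs (cs.simple i * w0 cs) * ag M j := by
    have h3 := tau_mul (cs := cs) (u := cs.simple i * w0 cs) (v := cs.simple j)
      (by rw [e2, cs.length_simple]; omega)
    rw [e2, tau_simple] at h3
    exact h3
  refine ⟨j, ?_⟩
  calc ag M i * dl cs = ag M i * (tau cs (cs.simple i * w0 cs) * ag M j) := by rw [← h4]
    _ = dl cs * ag M j := by rw [← mul_assoc, ← h2]

theorem mul_dl (x : AM M) : ∃ y, x * dl cs = dl cs * y ∧ ln y = ln x := by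
  induction x using am_ind with
  | h1 => exact ⟨1, by rw [one_mul, mul_one], rfl⟩
  | h i x ih =>
    obtain ⟨y, hy, hl⟩ := ih
    obtain ⟨j, hj⟩ := ag_mul_dl cs i
    exact ⟨ag M j * y, by rw [mul_assoc, hy, ← mul_assoc, hj, mul_assoc], by
      rw [ln_mul, ln_mul, hl, ln_ag, ln_ag]⟩

theorem mul_dl_pow (x : AM M) (n : ℕ) : ∃ y, x * dl cs ^ n = dl cs ^ n * y ∧ ln y = ln x := by
  induction n generalizing x with
  | zero => exact ⟨x, by rw [pow_zero, one_mul, mul_one], rfl⟩
  | succ n ih =>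
    obtain ⟨y, hy, hl⟩ := ih x
    obtain ⟨z, hz, hl'⟩ := mul_dl cs y
    exact ⟨z, by rw [pow_succ, ← mul_assoc, hy, mul_assoc, hz, ← mul_assoc], by rw [hl', hl]⟩

theorem ag_of_ln {y : AM M} (h : ln y = 1) : ∃ j, y = ag M j := by
  have hne : y ≠ 1 := by
    rintro rfl
    rw [ln_one] at h
    omega
  obtain ⟨j, z, rfl⟩ := exists_ag_of_ne hne
  rw [ln_mul, ln_ag] at h
  have h1 : z = 1 := ln_eq_zero (by omega)
  exact ⟨j, by rw [h1, mul_one]⟩

theorem dvd_dl_pow (x : AM M) : x ∣ dl cs ^ ln x := by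
  induction x using am_ind with
  | h1 => exact one_dvd _
  | h i x ih =>
    obtain ⟨z, hz⟩ := ih
    obtain ⟨y, hy, hl⟩ := mul_dl_pow cs (ag M i) (ln x)
    obtain ⟨j, rfl⟩ := ag_of_ln (hl.trans (ln_ag i))
    obtain ⟨d, hd⟩ := ag_dvd_dl cs j
    refine ⟨z * d, ?_⟩
    have e1 : ag M i * x * (z * d) = ag M i * (x * z) * d := by simp only [mul_assoc]
    rw [e1, ← hz, hy, mul_assoc, ← hd, ← pow_succ, ln_mul, ln_ag, add_comm]

include cs in
/-- common right multiples -/
theorem exists_common (e f : AM M) : ∃ P, e ∣ P ∧ f ∣ P := by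
  refine ⟨dl cs ^ (ln e + ln f), (dvd_dl_pow cs e).trans ?_, (dvd_dl_pow cs f).trans ?_⟩
  · rw [pow_add]
    exact Dvd.intro _ rfl
  · rw [add_comm, pow_add]
    exact Dvd.intro _ rfl

include cs in
/-- common right multiples with letters in `X` -/
theorem exists_common_in {X : Set B} {e f : AM M} (he : InX X e) (hf : InX X f) :
    ∃ p q, e * p = f * q ∧ InX X p ∧ InX X q := by
  obtain ⟨P, h1, h2⟩ := exists_common cs e f
  obtain ⟨L, hL⟩ := exists_lcm cs h1 h2
  have h3 := hL.inX X he hf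
  obtain ⟨p, hp⟩ := hL.l
  obtain ⟨q, hq⟩ := hL.r
  refine ⟨p, q, by rw [← hp, ← hq], ?_, ?_⟩
  · rw [hp, inX_mul] at h3
    exact h3.2
  · rw [hq, inX_mul] at h3
    exact h3.2

include cs in
/-- common left multiples with letters in `X` -/
theorem exists_common_in' {X : Set B} {e f : AM M} (he : InX X e) (hf : InX X f) :
    ∃ p q, p * e = q * f ∧ InX X p ∧ InX X q := by
  obtain ⟨p, q, h1, h2, h3⟩ := exists_common_in cs (inX_rev.2 he) (inX_rev.2 hf)
  refine ⟨rev p, rev q, ?_, inX_rev.2 h2, inX_rev.2 h3⟩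
  have h4 := congrArg rev h1
  rwa [rev_mul, rev_mul, rev_rev, rev_rev] at h4

end Pool.Agent.H2.SPH
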