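import Pool.Agent.H2.SPH.Del

/-!
# [H2 SPH] The Artin monoid of finite type embeds into the Artin group
-/

set_option autoImplicit false

namespace Pool.Agent.H2.SPH

open CoxeterSystem Pool.H8.CDW Pool.Agent.H52.PAG Pool.Agent.H75.INF OreLocalization

variable {B : Type*} (M : CoxeterMatrix B)

/-- the homomorphism to the Artin group -/
def inc : AM M →* Art M := alift (gen M) fun _ _ h => gen_rel h

theorem inc_ag (i : B) : inc M (ag M i) = gen M i := rfl

variable {M}

/-- the Ore condition -/
@[reducible] noncomputable def oreSetTop {W : Type*} [Group W] [Finite W] (cs : CoxeterSystem M W) :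
    OreSet (⊤ : Submonoid (AM M)) where
  ore_right_cancel r₁ r₂ s h := ⟨1, by rw [am_right_cancel cs h]⟩
  oreNum r s := (exists_common_in' cs (X := Set.univ) (e := r) (f := (s : AM M))
    (by induction r using am_ind with
        | h1 => exact inX_one _
        | h i x ih => exact inX_mul.2 ⟨inX_ag.2 (Set.mem_univ i), ih⟩)
    (by generalize (s : AM M) = y
        induction y using am_ind with
        | h1 => exact inX_one _
        | h i x ih => exact inX_mul.2 ⟨inX_ag.2 (Set.mem_univ i), ih⟩)).choose_spec.choose
  oreDenom r s := ⟨(exists_common_in' cs (X := Set.univ) (e := r) (f := (s : AM M))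
    (by induction r using am_ind with
        | h1 => exact inX_one _
        | h i x ih => exact inX_mul.2 ⟨inX_ag.2 (Set.mem_univ i), ih⟩)
    (by generalize (s : AM M) = y
        induction y using am_ind with
        | h1 => exact inX_one _
        | h i x ih => exact inX_mul.2 ⟨inX_ag.2 (Set.mem_univ i), ih⟩)).choose, trivial⟩
  ore_eq r s := (exists_common_in' cs (X := Set.univ) (e := r) (f := (s : AM M))
    (by induction r using am_ind with
        | h1 => exact inX_one _
        | h i x ih => exact inX_mul.2 ⟨inX_ag.2 (Set.mem_univ i), ih⟩)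
    (by generalize (s : AM M) = y
        induction y using am_ind with
        | h1 => exact inX_one _
        | h i x ih => exact inX_mul.2 ⟨inX_ag.2 (Set.mem_univ i), ih⟩)).choose_spec.choose_spec.1

/-- the embedding -/
theorem inc_injective {W : Type*} [Group W] [Finite W] (cs : CoxeterSystem M W) {x y : AM M}
    (h : inc M x = inc M y) : x = y := by
  let _i := oreSetTop cs
  let S : Submonoid (AM M) := ⊤
  let u : B → (OreLocalization S (AM M))ˣ := fun i => numeratorUnit (S := S) ⟨ag M i, trivial⟩
  have hu : ∀ i, ((u i : (OreLocalization S (AM M))ˣ) : OreLocalization S (AM M)) = numeratorHom (S := S) (ag M i) :=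
    fun i => rfl
  have hval : ∀ (i j : B) (n : ℕ), ((alt (u i) (u j) n : (OreLocalization S (AM M))ˣ) : OreLocalization S (AM M)) =
      numeratorHom (S := S) (alt (ag M i) (ag M j) n) := by
    intro i j n
    have h1 := map_alt' (Units.coeHom (OreLocalization S (AM M))) (u i) (u j) n
    have h2 := map_alt' (numeratorHom (S := S) (R := AM M)) (ag M i) (ag M j) n
    rw [h2]
    exact h1
  have hf : ∀ i j, M i j ≠ 0 → alt (u i) (u j) (M i j) = alt (u j) (u i) (M i j) := by
    intro i j hij
    apply Units.ext
    rw [hval, hval, ag_rel hij]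
  have key : ∀ z : AM M, ((lift u hf (inc M z) : (OreLocalization S (AM M))ˣ) : OreLocalization S (AM M)) =
      numeratorHom (S := S) z := by
    intro z
    have h1 := am_hom_ext (f := ((Units.coeHom (OreLocalization S (AM M))).comp (lift u hf)).comp (inc M))
      (g := numeratorHom (S := S) (R := AM M)) (fun i => by
        show ((lift u hf (gen M i) : (OreLocalization S (AM M))ˣ) : OreLocalization S (AM M)) = _
        rw [lift_gen]
        exact hu i) z
    exact h1
  have h1 : numeratorHom (S := S) x = numeratorHom (S := S) y := by
    rw [← key x, ← key y, h]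
  rw [numeratorHom_apply, numeratorHom_apply, oreDiv_eq_iff] at h1
  obtain ⟨a, b, h2, h3⟩ := h1
  rw [OneMemClass.coe_one, mul_one, mul_one] at h3
  rw [← h3] at h2
  exact (am_left_cancel cs (g := (a : AM M)) h2).symm

end Pool.Agent.H2.SPH
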