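import Pool.Agent.H2.SPH.Emb

/-!
# [H2 SPH] Fractions in Artin groups of finite type
-/

set_option autoImplicit false

namespace Pool.Agent.H2.SPH

open CoxeterSystem Pool.H8.CDW Pool.Agent.H52.PAG Pool.Agent.H75.INF

variable {B : Type} {M : CoxeterMatrix B}

theorem inc_mem {X : Set B} {x : AM M} (h : InX X x) : inc M x ∈ ap M X := by
  induction x using am_ind with
  | h1 =>
    rw [map_one]
    exact one_mem _
  | h i x ih =>
    rw [inX_mul] at h
    rw [map_mul]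
    exact mul_mem (gen_mem_ap (inX_ag.1 h.1)) (ih h.2)

variable {W : Type*} [Group W] [Finite W] (cs : CoxeterSystem M W)

include cs in
/-- right fractions -/
theorem frac_right {X : Set B} {x : Art M} (hx : x ∈ ap M X) :
    ∃ u v, InX X u ∧ InX X v ∧ x = inc M u * (inc M v)⁻¹ := by
  refine ap_induction (P := fun x => ∃ u v, InX X u ∧ InX X v ∧ x = inc M u * (inc M v)⁻¹) ?_ ?_ ?_ hx
  · exact ⟨1, 1, inX_one X, inX_one X, by rw [map_one, inv_one, one_mul]⟩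
  · rintro _ - k hk ⟨u, v, hu, hv, rfl⟩
    obtain ⟨p, q, h1, h2, h3⟩ := exists_common_in cs hv (inX_ag.2 hk)
    refine ⟨u * p, q, inX_mul.2 ⟨hu, h2⟩, h3, ?_⟩
    have h4 := congrArg (inc M) h1
    rw [map_mul, map_mul, inc_ag] at h4
    have h5 : (inc M v)⁻¹ * gen M k = inc M p * (inc M q)⁻¹ := by
      rw [inv_mul_eq_iff_eq_mul, ← mul_assoc, h4, mul_inv_cancel_right]
    rw [map_mul, mul_assoc, h5, mul_assoc]
  · rintro _ - k hk ⟨u, v, hu, hv, rfl⟩
    refine ⟨u, ag M k * v, hu, inX_mul.2 ⟨inX_ag.2 hk, hv⟩, ?_⟩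
    rw [map_mul, inc_ag, mul_inv_rev, mul_assoc]

include cs in
/-- left fractions -/
theorem frac_left {X : Set B} {x : Art M} (hx : x ∈ ap M X) :
    ∃ g h, InX X g ∧ InX X h ∧ x = (inc M g)⁻¹ * inc M h := by
  refine ap_induction (P := fun x => ∃ g h, InX X g ∧ InX X h ∧ x = (inc M g)⁻¹ * inc M h) ?_ ?_ ?_ hx
  · exact ⟨1, 1, inX_one X, inX_one X, by rw [map_one, inv_one, one_mul]⟩
  · rintro _ - k hk ⟨g, h, hg, hh, rfl⟩
    refine ⟨g, h * ag M k, hg, inX_mul.2 ⟨hh, inX_ag.2 hk⟩, ?_⟩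
    rw [map_mul, inc_ag, mul_assoc]
  · rintro _ - k hk ⟨g, h, hg, hh, rfl⟩
    obtain ⟨p, q, h1, h2, h3⟩ := exists_common_in' cs hh (inX_ag.2 hk)
    refine ⟨p * g, q, inX_mul.2 ⟨h2, hg⟩, h3, ?_⟩
    have h4 := congrArg (inc M) h1
    rw [map_mul, map_mul, inc_ag] at h4
    have h5 : inc M h * (gen M k)⁻¹ = (inc M p)⁻¹ * inc M q := by
      rw [mul_inv_eq_iff_eq_mul, mul_assoc, ← h4, inv_mul_cancel_left]
    rw [map_mul, mul_assoc, h5, mul_inv_rev, mul_assoc]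

include cs in
/-- reduced left fractions -/
theorem frac_red {X : Set B} {x : Art M} (hx : x ∈ ap M X) :
    ∃ g h, InX X g ∧ InX X h ∧ x = (inc M g)⁻¹ * inc M h ∧ ∀ t, ¬ (ag M t ∣ g ∧ ag M t ∣ h) := by
  have key : ∀ (n : ℕ) (g h : AM M), ln g = n → InX X g → InX X h → x = (inc M g)⁻¹ * inc M h →
      ∃ g h, InX X g ∧ InX X h ∧ x = (inc M g)⁻¹ * inc M h ∧ ∀ t, ¬ (ag M t ∣ g ∧ ag M t ∣ h) := by
    intro n
    induction n with
    | zero =>
      intro g h hn hg hh hx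
      refine ⟨g, h, hg, hh, hx, fun t ht => ?_⟩
      have h1 := ln_of_dvd ht.1
      rw [ln_ag] at h1
      omega
    | succ n ih =>
      intro g h hn hg hh hx
      by_cases hex : ∃ t, ag M t ∣ g ∧ ag M t ∣ h
      · obtain ⟨t, ⟨g', rfl⟩, ⟨h', rfl⟩⟩ := hex
        rw [ln_mul, ln_ag] at hn
        refine ih g' h' (by omega) (inX_mul.1 hg).2 (inX_mul.1 hh).2 ?_
        rw [hx, map_mul, map_mul]
        group
      · push Not at hex
        exact ⟨g, h, hg, hh, hx, fun t ht => hex t ht.1 ht.2⟩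
  obtain ⟨g, h, h1, h2, h3⟩ := frac_left cs hx
  exact key _ g h rfl h1 h2 h3

include cs in
/-- reduced left fractions are unique -/
theorem frac_uniq {a b c d : AM M} (h : (inc M a)⁻¹ * inc M b = (inc M c)⁻¹ * inc M d)
    (h1 : ∀ t, ¬ (ag M t ∣ a ∧ ag M t ∣ b)) (h2 : ∀ t, ¬ (ag M t ∣ c ∧ ag M t ∣ d)) : a = c ∧ b = d := by
  have huniv : ∀ z : AM M, InX Set.univ z := by
    intro z
    induction z using am_ind with
    | h1 => exact inX_one _
    | h i x ih => exact inX_mul.2 ⟨inX_ag.2 (Set.mem_univ i), ih⟩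
  obtain ⟨e, f, h3, -, -⟩ := exists_common_in' cs (huniv a) (huniv c)
  have h4 : e * b = f * d := by
    apply inc_injective cs
    have h5 := congrArg (inc M) h3
    rw [map_mul, map_mul] at h5
    rw [map_mul, map_mul]
    have e1 : inc M b = inc M a * ((inc M c)⁻¹ * inc M d) := by rw [← h, mul_inv_cancel_left]
    rw [e1, ← mul_assoc, h5]
    group
  obtain ⟨L, hL⟩ := exists_lcm cs (Dvd.intro a rfl : e ∣ e * a) (Dvd.intro c h3.symm : f ∣ e * a)
  have h5 : L ∣ e * a := hL.min _ (Dvd.intro _ rfl) (Dvd.intro _ h3.symm)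
  have h6 : L ∣ e * b := hL.min _ (Dvd.intro _ rfl) (Dvd.intro _ h4.symm)
  have hone : ∀ {z p q : AM M}, (∀ t, ¬ (ag M t ∣ p ∧ ag M t ∣ q)) → z ∣ p → z ∣ q → z = 1 := by
    intro z p q hpq hp hq
    by_contra hne
    obtain ⟨t, y, rfl⟩ := exists_ag_of_ne hne
    exact hpq t ⟨(Dvd.intro _ rfl : ag M t ∣ ag M t * y).trans hp, (Dvd.intro _ rfl : ag M t ∣ ag M t * y).trans hq⟩
  obtain ⟨e1, he1⟩ := hL.l
  obtain ⟨f1, hf1⟩ := hL.r
  have h7 : e1 = 1 := hone h1 (dvd_cancel cs (g := e) (by rw [← he1]; exact h5))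
    (dvd_cancel cs (g := e) (by rw [← he1]; exact h6))
  have h8 : f1 = 1 := hone h2 (dvd_cancel cs (g := f) (by rw [← hf1, ← h3]; exact h5))
    (dvd_cancel cs (g := f) (by rw [← hf1, ← h4]; exact h6))
  rw [h7, mul_one] at he1
  rw [h8, mul_one] at hf1
  have h9 : e = f := by rw [← he1, hf1]
  subst h9
  exact ⟨am_left_cancel cs h3, am_left_cancel cs h4⟩

include cs in
/-- intersections of parabolic subgroups -/
theorem ap_inf' {X Y : Set B} {x : Art M} (hX : x ∈ ap M X) (hY : x ∈ ap M Y) : x ∈ ap M (X ∩ Y) := by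
  obtain ⟨g, h, h1, h2, h3, h4⟩ := frac_red cs hX
  obtain ⟨g', h', k1, k2, k3, k4⟩ := frac_red cs hY
  obtain ⟨e1, e2⟩ := frac_uniq cs (h3.symm.trans k3) h4 k4
  rw [← e1] at k1
  rw [← e2] at k2
  rw [h3]
  exact mul_mem (inv_mem (inc_mem (inX_inter h1 k1))) (inc_mem (inX_inter h2 k2))

omit [Finite W] in
/-- the maximal left factor with letters in `R` -/
theorem split_left (R : Set B) (u : AM M) : ∃ r v, u = r * v ∧ InX R r ∧ ∀ t ∈ R, ¬ ag M t ∣ v := by
  have key : ∀ (n : ℕ) (u : AM M), ln u = n → ∃ r v, u = r * v ∧ InX R r ∧ ∀ t ∈ R, ¬ ag M t ∣ v := by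
    intro n
    induction n with
    | zero =>
      intro u hn
      refine ⟨1, u, (one_mul u).symm, inX_one R, fun t _ ht => ?_⟩
      have h1 := ln_of_dvd ht
      rw [ln_ag] at h1
      omega
    | succ n ih =>
      intro u hn
      by_cases hex : ∃ t ∈ R, ag M t ∣ u
      · obtain ⟨t, ht, v, rfl⟩ := hex
        rw [ln_mul, ln_ag] at hn
        obtain ⟨r, w, h1, h2, h3⟩ := ih v (by omega)
        exact ⟨ag M t * r, w, by rw [h1, mul_assoc], inX_mul.2 ⟨inX_ag.2 ht, h2⟩, h3⟩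
      · push Not at hex
        exact ⟨1, u, (one_mul u).symm, inX_one R, hex⟩
  exact key _ u rfl

end Pool.Agent.H2.SPH
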