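import Pool.Agent.H2.SPH.Act

/-!
# [H2 SPH] Least common multiples in the Artin monoid

`a ∣ b`: `a` divides `b` from the left. Two elements with a common multiple have a least common multiple, its letters are letters of
the two elements.
-/

set_option autoImplicit false

namespace Pool.Agent.H2.SPH

open CoxeterSystem Pool.H8.CDW Pool.Agent.H52.PAG Pool.Agent.H75.INF

variable {B W : Type*} [Group W] {M : CoxeterMatrix B} (cs : CoxeterSystem M W)

include cs in
theorem dvd_cancel {g a b : AM M} (h : g * a ∣ g * b) : a ∣ b := by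
  obtain ⟨c, hc⟩ := h
  rw [mul_assoc] at hc
  exact ⟨c, am_left_cancel cs hc⟩

theorem dvd_mul_of_dvd {g a b : AM M} (h : a ∣ b) : g * a ∣ g * b := by
  obtain ⟨c, rfl⟩ := h
  exact ⟨c, by rw [mul_assoc]⟩

theorem inX_of_dvd {X : Set B} {a b : AM M} (h : a ∣ b) (hb : InX X b) : InX X a := by
  obtain ⟨c, rfl⟩ := h
  exact (inX_mul.1 hb).1

theorem ln_of_dvd {a b : AM M} (h : a ∣ b) : ln a ≤ ln b := by
  obtain ⟨c, rfl⟩ := h
  rw [ln_mul]
  omega

theorem dvd_antisymm_am {a b : AM M} (h : a ∣ b) (h' : b ∣ a) : a = b := by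
  obtain ⟨c, rfl⟩ := h
  have h1 := ln_of_dvd h'
  rw [ln_mul] at h1
  have h2 : c = 1 := ln_eq_zero (by omega)
  rw [h2, mul_one]

/-- a least common multiple -/
structure IsLcm (e f L : AM M) : Prop where
  l : e ∣ L
  r : f ∣ L
  min : ∀ Q, e ∣ Q → f ∣ Q → L ∣ Q
  inX : ∀ X : Set B, InX X e → InX X f → InX X L

theorem IsLcm.symm {e f L : AM M} (h : IsLcm e f L) : IsLcm f e L :=
  ⟨h.r, h.l, fun Q h1 h2 => h.min Q h2 h1, fun X h1 h2 => h.inX X h2 h1⟩

include cs in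
theorem IsLcm.mul_left {e f L : AM M} (h : IsLcm e f L) (g : AM M) : IsLcm (g * e) (g * f) (g * L) := by
  refine ⟨dvd_mul_of_dvd h.l, dvd_mul_of_dvd h.r, ?_, ?_⟩
  · intro Q h1 h2
    obtain ⟨q, rfl⟩ : g ∣ Q := (Dvd.intro _ rfl : g ∣ g * e).trans h1
    exact dvd_mul_of_dvd (h.min q (dvd_cancel cs h1) (dvd_cancel cs h2))
  · intro X h1 h2
    rw [inX_mul] at h1 h2 ⊢
    exact ⟨h1.1, h.inX X h1.2 h2.2⟩

/-- the lcm of two letters -/
theorem isLcm_letters {i j : B} (hij : i ≠ j) (hM : M i j ≠ 0) :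
    IsLcm (ag M i) (ag M j) (alt (ag M i) (ag M j) (M i j)) := by
  have hs : M j i = M i j := M.symmetric j i
  obtain ⟨k, hk⟩ : ∃ k, M i j = k + 1 := ⟨M i j - 1, by omega⟩
  refine ⟨?_, ?_, fun Q h1 h2 => (braid_dvd M.toCoxeterSystem hij h1 h2).2, fun X h1 h2 => ?_⟩
  · rw [hk]
    exact Dvd.intro _ rfl
  · rw [ag_rel hM, hk]
    exact Dvd.intro _ rfl
  · exact inX_alt (inX_ag.1 h1) (inX_ag.1 h2)

include cs in
theorem exists_lcm_aux : ∀ (n : ℕ) (e f P : AM M), ln P ≤ n → e ∣ P → f ∣ P → ∃ L, IsLcm e f L := by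
  intro n
  induction n with
  | zero =>
    intro e f P hP he hf
    have h1 := ln_of_dvd he
    have h2 := ln_of_dvd hf
    have e1 : e = 1 := ln_eq_zero (by omega)
    have e2 : f = 1 := ln_eq_zero (by omega)
    subst e1 e2
    exact ⟨1, dvd_rfl, dvd_rfl, fun Q h _ => h, fun X h _ => h⟩
  | succ n ih =>
    intro e f P hP he hf
    by_cases he1 : e = 1
    · subst he1
      exact ⟨f, one_dvd _, dvd_rfl, fun Q _ h => h, fun X _ h => h⟩
    by_cases hf1 : f = 1
    · subst hf1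
      exact ⟨e, dvd_rfl, one_dvd _, fun Q h _ => h, fun X h _ => h⟩
    obtain ⟨s, e', rfl⟩ := exists_ag_of_ne he1
    obtain ⟨t, f', rfl⟩ := exists_ag_of_ne hf1
    have hsP : ag M s ∣ P := (Dvd.intro _ rfl : ag M s ∣ ag M s * e').trans he
    have htP : ag M t ∣ P := (Dvd.intro _ rfl : ag M t ∣ ag M t * f').trans hf
    by_cases hst : s = t
    · subst hst
      obtain ⟨P', rfl⟩ := hsP
      rw [ln_mul, ln_ag] at hP
      obtain ⟨L, hL⟩ := ih e' f' P' (by omega) (dvd_cancel cs he) (dvd_cancel cs hf)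
      exact ⟨_, hL.mul_left cs _⟩
    obtain ⟨hM, hbP⟩ := braid_dvd cs hst hsP htP
    have hs : M t s = M s t := M.symmetric t s
    obtain ⟨k, hk⟩ : ∃ k, M s t = k + 1 := ⟨M s t - 1, by omega⟩
    have hw1 : alt (ag M s) (ag M t) (M s t) = ag M s * alt (ag M t) (ag M s) k := by
      rw [hk]; rfl
    have hw2 : alt (ag M s) (ag M t) (M s t) = ag M t * alt (ag M s) (ag M t) k := by
      rw [ag_rel hM, hk]; rfl
    obtain ⟨P1, hP1⟩ := hsP
    obtain ⟨P2, hP2⟩ := htP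
    have l1 : ln P = 1 + ln P1 := by rw [hP1, ln_mul, ln_ag]
    have l2 : ln P = 1 + ln P2 := by rw [hP2, ln_mul, ln_ag]
    -- the lcm of `e` and the braid word
    obtain ⟨L1, hL1⟩ := ih e' (alt (ag M t) (ag M s) k) P1 (by omega)
      (dvd_cancel cs (by rw [← hP1]; exact he)) (dvd_cancel cs (by rw [← hP1, ← hw1]; exact hbP))
    obtain ⟨L2, hL2⟩ := ih f' (alt (ag M s) (ag M t) k) P2 (by omega)
      (dvd_cancel cs (by rw [← hP2]; exact hf)) (dvd_cancel cs (by rw [← hP2, ← hw2]; exact hbP))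
    have hE := hL1.mul_left cs (ag M s)
    rw [← hw1] at hE
    have hF := hL2.mul_left cs (ag M t)
    rw [← hw2] at hF
    have hEP : ag M s * L1 ∣ P := hE.min P he hbP
    have hFP : ag M t * L2 ∣ P := hF.min P hf hbP
    obtain ⟨F1, hF1⟩ : ag M s ∣ ag M t * L2 := (Dvd.intro _ hw1.symm : ag M s ∣ _).trans hF.r
    obtain ⟨L3, hL3⟩ := ih L1 F1 P1 (by omega)
      (dvd_cancel cs (by rw [← hP1]; exact hEP)) (dvd_cancel cs (by rw [← hP1, ← hF1]; exact hFP))
    have hL := hL3.mul_left cs (ag M s)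
    rw [← hF1] at hL
    refine ⟨ag M s * L3, hE.l.trans hL.l, hF.l.trans hL.r, ?_, ?_⟩
    · intro Q h1 h2
      have q1 : ag M s ∣ Q := (Dvd.intro _ rfl : ag M s ∣ ag M s * e').trans h1
      have q2 : ag M t ∣ Q := (Dvd.intro _ rfl : ag M t ∣ ag M t * f').trans h2
      have q3 := (braid_dvd cs hst q1 q2).2
      exact hL.min Q (hE.min Q h1 q3) (hF.min Q h2 q3)
    · intro X h1 h2
      have x1 := inX_ag.1 (inX_mul.1 h1).1
      have x2 := inX_ag.1 (inX_mul.1 h2).1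
      have x3 : InX X (alt (ag M s) (ag M t) (M s t)) := inX_alt x1 x2
      exact hL.inX X (hE.inX X h1 x3) (hF.inX X h2 x3)

include cs in
theorem exists_lcm {e f P : AM M} (he : e ∣ P) (hf : f ∣ P) : ∃ L, IsLcm e f L :=
  exists_lcm_aux cs (ln P) e f P le_rfl he hf

end Pool.Agent.H2.SPH
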