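import Pool.Agent.H2.SPH.Pre

/-!
# [H2 SPH] The Artin monoid

`AM M` is the monoid with generators `ag i` and the braid relations, `ln` the length, `InX X x`: all letters of `x` are in
`X`, `rev` the reversal, `tau : W → AM M` the section given by reduced words (Matsumoto).
-/

set_option autoImplicit false

namespace Pool.Agent.H2.SPH

open CoxeterSystem Pool.H8.CDW Pool.Agent.H52.PAG Pool.Agent.H75.INF

section defs

variable {B : Type*} (M : CoxeterMatrix B)

/-- the braid relations of the monoid -/
def mrel : FreeMonoid B → FreeMonoid B → Prop := fun a b =>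
  ∃ i j, M i j ≠ 0 ∧ a = alt (FreeMonoid.of i) (FreeMonoid.of j) (M i j) ∧
    b = alt (FreeMonoid.of j) (FreeMonoid.of i) (M i j)

/-- the Artin monoid -/
def AM : Type _ := PresentedMonoid (mrel M)

instance : Monoid (AM M) := (inferInstance : Monoid (PresentedMonoid (mrel M)))

/-- the generators -/
def ag (i : B) : AM M := PresentedMonoid.of (mrel M) i

end defs

variable {B : Type*} {M : CoxeterMatrix B}

theorem map_alt' {G H : Type*} [Monoid G] [Monoid H] (f : G →* H) (x y : G) (n : ℕ) :
    f (alt x y n) = alt (f x) (f y) n := by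
  induction n generalizing x y with
  | zero => exact map_one f
  | succ n ih => simp only [alt, map_mul, ih]

/-- homomorphisms from the Artin monoid -/
def alift {N : Type*} [Monoid N] (f : B → N)
    (hf : ∀ i j, M i j ≠ 0 → alt (f i) (f j) (M i j) = alt (f j) (f i) (M i j)) : AM M →* N :=
  PresentedMonoid.lift (rels := mrel M) f (by
    rintro a b ⟨i, j, h, rfl, rfl⟩
    rw [map_alt', map_alt', FreeMonoid.lift_eval_of, FreeMonoid.lift_eval_of]
    exact hf i j h)

theorem alift_ag {N : Type*} [Monoid N] (f : B → N)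
    (hf : ∀ i j, M i j ≠ 0 → alt (f i) (f j) (M i j) = alt (f j) (f i) (M i j)) (i : B) :
    alift f hf (ag M i) = f i := rfl

theorem ag_rel {i j : B} (h : M i j ≠ 0) : alt (ag M i) (ag M j) (M i j) = alt (ag M j) (ag M i) (M i j) := by
  have h1 : PresentedMonoid.mk (mrel M) (alt (FreeMonoid.of i) (FreeMonoid.of j) (M i j)) =
      PresentedMonoid.mk (mrel M) (alt (FreeMonoid.of j) (FreeMonoid.of i) (M i j)) :=
    PresentedMonoid.mk_eq_mk_of_rel ⟨i, j, h, rfl, rfl⟩
  rw [map_alt', map_alt'] at h1
  exact h1

theorem am_ind {P : AM M → Prop} (h1 : P 1) (h : ∀ i x, P x → P (ag M i * x)) (x : AM M) : P x := by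
  have hx : x ∈ Submonoid.closure (Set.range (ag M)) := by
    have h2 : Submonoid.closure (Set.range (ag M)) = ⊤ := PresentedMonoid.closure_range_of (mrel M)
    rw [h2]
    exact Submonoid.mem_top x
  induction hx using Submonoid.closure_induction_left with
  | one => exact h1
  | mul_left x hx y hy ih =>
    obtain ⟨i, rfl⟩ := hx
    exact h i y ih

theorem am_ind' {P : AM M → Prop} (h1 : P 1) (h : ∀ i x, P x → P (x * ag M i)) (x : AM M) : P x := by
  have hx : x ∈ Submonoid.closure (Set.range (ag M)) := by
    have h2 : Submonoid.closure (Set.range (ag M)) = ⊤ := PresentedMonoid.closure_range_of (mrel M)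
    rw [h2]
    exact Submonoid.mem_top x
  induction hx using Submonoid.closure_induction_right with
  | one => exact h1
  | mul_right x hx y hy ih =>
    obtain ⟨i, rfl⟩ := hy
    exact h i x ih

theorem am_hom_ext {N : Type*} [Monoid N] {f g : AM M →* N} (h : ∀ i, f (ag M i) = g (ag M i)) (x : AM M) :
    f x = g x := by
  induction x using am_ind with
  | h1 => rw [map_one, map_one]
  | h i x ih => rw [map_mul, map_mul, h, ih]

/-! ### the length -/

theorem alt_const {N : Type*} [Monoid N] (x : N) (n : ℕ) : alt x x n = x ^ n := by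
  induction n with
  | zero => rw [pow_zero]; rfl
  | succ n ih => rw [pow_succ', ← ih]; rfl

/-- the length -/
def lnh (M : CoxeterMatrix B) : AM M →* Multiplicative ℕ :=
  alift (fun _ => Multiplicative.ofAdd 1) fun _ _ _ => rfl

/-- the length -/
def ln (x : AM M) : ℕ := Multiplicative.toAdd (lnh M x)

theorem ln_one : ln (1 : AM M) = 0 := by
  unfold ln
  rw [map_one]
  rfl

theorem ln_mul (x y : AM M) : ln (x * y) = ln x + ln y := by
  unfold ln
  rw [map_mul]
  rfl

theorem ln_ag (i : B) : ln (ag M i) = 1 := rfl

theorem exists_ag_of_ne {x : AM M} (h : x ≠ 1) : ∃ i y, x = ag M i * y := by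
  induction x using am_ind with
  | h1 => exact absurd rfl h
  | h i x ih => exact ⟨i, x, rfl⟩

theorem exists_ag_of_ne' {x : AM M} (h : x ≠ 1) : ∃ i y, x = y * ag M i := by
  induction x using am_ind' with
  | h1 => exact absurd rfl h
  | h i x ih => exact ⟨i, x, rfl⟩

theorem ln_eq_zero {x : AM M} (h : ln x = 0) : x = 1 := by
  by_contra hne
  obtain ⟨i, y, rfl⟩ := exists_ag_of_ne hne
  rw [ln_mul, ln_ag] at h
  omega

/-! ### the letters -/

open Classical in
/-- `0` or `1` -/
noncomputable def chi (M : CoxeterMatrix B) (X : Set B) : AM M →* ℕ :=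
  alift (fun i => if i ∈ X then 1 else 0) fun i j h => by
    have key : ∀ (a b : ℕ) (n : ℕ), (a = 0 ∨ a = 1) → (b = 0 ∨ b = 1) → alt a b (n + 2) = a * b := by
      intro a b n
      induction n generalizing a b with
      | zero =>
        intro _ _
        show a * (b * 1) = a * b
        rw [mul_one]
      | succ n ih =>
        intro ha hb
        show a * alt b a (n + 2) = a * b
        rw [ih b a hb ha]
        rcases ha with rfl | rfl
        · ring
        · ring
    by_cases hij : i = j
    · subst hij
      rfl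
    have h2 : 2 ≤ M i j := by
      have h3 := M.off_diagonal i j hij
      have h4 : M.M i j = M i j := rfl
      omega
    obtain ⟨n, hn⟩ : ∃ n, M i j = n + 2 := ⟨M i j - 2, by omega⟩
    have hi : ∀ k : B, (if k ∈ X then (1 : ℕ) else 0) = 0 ∨ (if k ∈ X then (1 : ℕ) else 0) = 1 := by
      intro k
      by_cases hk : k ∈ X
      · right; rw [if_pos hk]
      · left; rw [if_neg hk]
    have hn' : M.M i j = n + 2 := hn
    rw [hn', key _ _ n (hi i) (hi j), key _ _ n (hi j) (hi i), mul_comm]

/-- all letters are in `X` -/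
def InX (X : Set B) (x : AM M) : Prop := chi M X x = 1

theorem inX_mul {X : Set B} {x y : AM M} : InX X (x * y) ↔ InX X x ∧ InX X y := by
  unfold InX
  rw [map_mul]
  exact mul_eq_one

theorem inX_one (X : Set B) : InX X (1 : AM M) := by
  unfold InX
  rw [map_one]

theorem inX_ag {X : Set B} {i : B} : InX X (ag M i) ↔ i ∈ X := by
  unfold InX chi
  rw [alift_ag]
  by_cases h : i ∈ X
  · simp [h]
  · simp [h]

theorem inX_mono {X Y : Set B} (h : X ⊆ Y) {x : AM M} (hx : InX X x) : InX Y x := by
  induction x using am_ind with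
  | h1 => exact inX_one Y
  | h i x ih =>
    rw [inX_mul] at hx ⊢
    exact ⟨inX_ag.2 (h (inX_ag.1 hx.1)), ih hx.2⟩

theorem inX_inter {X Y : Set B} {x : AM M} (hx : InX X x) (hy : InX Y x) : InX (X ∩ Y) x := by
  induction x using am_ind with
  | h1 => exact inX_one _
  | h i x ih =>
    rw [inX_mul] at hx hy ⊢
    exact ⟨inX_ag.2 ⟨inX_ag.1 hx.1, inX_ag.1 hy.1⟩, ih hx.2 hy.2⟩

theorem inX_alt {X : Set B} {i j : B} {n : ℕ} (hi : i ∈ X) (hj : j ∈ X) : InX X (alt (ag M i) (ag M j) n) := by
  induction n generalizing i j with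
  | zero => exact inX_one _
  | succ n ih => exact inX_mul.2 ⟨inX_ag.2 hi, ih hj hi⟩

/-! ### reversal -/

theorem alt_snoc {N : Type*} [Monoid N] (x y : N) (n : ℕ) :
    alt x y (n + 1) = if Even n then alt x y n * x else alt x y n * y := by
  induction n generalizing x y with
  | zero => simp [alt]
  | succ n ih =>
    have e : alt x y (n + 1 + 1) = x * alt y x (n + 1) := rfl
    rw [e, ih y x]
    by_cases h : Even n
    · have h1 : ¬ Even (n + 1) := by
        rw [Nat.even_add_one]
        exact fun h2 => h2 h
      rw [if_pos h, if_neg h1, ← mul_assoc]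
      rfl
    · have h1 : Even (n + 1) := Nat.even_add_one.2 h
      rw [if_neg h, if_pos h1, ← mul_assoc]
      rfl

theorem alt_op {N : Type*} [Monoid N] (x y : N) (n : ℕ) :
    alt (MulOpposite.op x) (MulOpposite.op y) n = MulOpposite.op (if Even n then alt y x n else alt x y n) := by
  induction n generalizing x y with
  | zero => rfl
  | succ n ih =>
    have e : alt (MulOpposite.op x) (MulOpposite.op y) (n + 1) = MulOpposite.op x * alt (MulOpposite.op y) (MulOpposite.op x) n :=
      rfl
    rw [e, ih y x, ← MulOpposite.op_mul, alt_snoc x y n, alt_snoc y x n]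
    by_cases h : Even n
    · have h1 : ¬ Even (n + 1) := by
        rw [Nat.even_add_one]
        exact fun h2 => h2 h
      rw [if_pos h, if_neg h1, if_pos h]
    · have h1 : Even (n + 1) := Nat.even_add_one.2 h
      rw [if_neg h, if_pos h1, if_neg h]

/-- the reversal -/
def revh (M : CoxeterMatrix B) : AM M →* (AM M)ᵐᵒᵖ :=
  alift (fun i => MulOpposite.op (ag M i)) fun i j h => by
    rw [alt_op, alt_op, ag_rel h]

/-- the reversal -/
def rev (x : AM M) : AM M := MulOpposite.unop (revh M x)

theorem rev_one : rev (1 : AM M) = 1 := by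
  unfold rev
  rw [map_one]
  rfl

theorem rev_mul (x y : AM M) : rev (x * y) = rev y * rev x := by
  unfold rev
  rw [map_mul]
  rfl

theorem rev_ag (i : B) : rev (ag M i) = ag M i := rfl

theorem rev_rev (x : AM M) : rev (rev x) = x := by
  induction x using am_ind with
  | h1 => rw [rev_one, rev_one]
  | h i x ih => rw [rev_mul, rev_mul, ih, rev_ag, rev_ag]

theorem rev_inj {x y : AM M} (h : rev x = rev y) : x = y := by
  rw [← rev_rev x, h, rev_rev]

theorem ln_rev (x : AM M) : ln (rev x) = ln x := by
  induction x using am_ind with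
  | h1 => rw [rev_one]
  | h i x ih => rw [rev_mul, ln_mul, ln_mul, ih, rev_ag, add_comm]

theorem inX_rev {X : Set B} {x : AM M} : InX X (rev x) ↔ InX X x := by
  induction x using am_ind with
  | h1 => rw [rev_one]
  | h i x ih => rw [rev_mul, inX_mul, inX_mul, ih, rev_ag, and_comm]

/-! ### the section -/

section tau

variable {W : Type*} [Group W] (cs : CoxeterSystem M W)

/-- the section given by the reduced words -/
noncomputable def tau (w : W) : AM M := ((cs.exists_isReduced w).choose.map (ag M)).prod

theorem tau_eq {ω : List B} (h : cs.IsReduced ω) : tau cs (cs.wordProd ω) = (ω.map (ag M)).prod := by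
  have h1 := (cs.exists_isReduced (cs.wordProd ω)).choose_spec
  refine matsu cs Set.univ (ag M) (fun i _ j _ hij => ag_rel hij) h1.1 h (fun i _ => Set.mem_univ i)
    (fun i _ => Set.mem_univ i) h1.2.symm

variable {cs}

theorem tau_mul {u v : W} (h : cs.length (u * v) = cs.length u + cs.length v) :
    tau cs (u * v) = tau cs u * tau cs v := by
  obtain ⟨ω, h1, rfl⟩ := cs.exists_isReduced u
  obtain ⟨ν, h2, rfl⟩ := cs.exists_isReduced v
  have h3 : cs.IsReduced (ω ++ ν) := by
    unfold CoxeterSystem.IsReduced
    rw [wordProd_append, h, h1.eq, h2.eq, List.length_append]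
  rw [← wordProd_append, tau_eq cs h3, tau_eq cs h1, tau_eq cs h2, List.map_append, List.prod_append]

theorem tau_one : tau cs (1 : W) = 1 := by
  have h : cs.IsReduced [] := by
    unfold CoxeterSystem.IsReduced
    simp
  have h1 := tau_eq cs h
  rw [wordProd_nil] at h1
  rw [h1]
  rfl

theorem tau_simple (i : B) : tau cs (cs.simple i) = ag M i := by
  have h : cs.IsReduced [i] := by
    unfold CoxeterSystem.IsReduced
    rw [wordProd_singleton, cs.length_simple]
    rfl
  have h1 := tau_eq cs h
  rw [wordProd_singleton] at h1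
  rw [h1]
  simp

theorem ln_tau (w : W) : ln (tau cs w) = cs.length w := by
  obtain ⟨ω, h1, rfl⟩ := cs.exists_isReduced w
  rw [tau_eq cs h1, h1.eq]
  clear h1
  induction ω with
  | nil => exact ln_one
  | cons i ω ih => rw [List.map_cons, List.prod_cons, ln_mul, ih, ln_ag, List.length_cons, add_comm]

end tau

end Pool.Agent.H2.SPH
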