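import Pool.Agent.H75.INF.Mts

/-!
# [H2 SPH] The prefix order of a Coxeter group

`Pf cs u w`: `u` is a prefix of `w`. `exists_top`: a bounded set of elements which is closed under prefixes and under the
joins `v w_st` of `v s` and `v t` has a maximum (Newman's lemma). `mx cs y w`: the longest prefix `v` of `w` with
`ℓ (y v) = ℓ y + ℓ v`; `mx_mul`: `y ↦ y * mx y w` is an action of the reduced products.
-/

set_option autoImplicit false

namespace Pool.Agent.H2.SPH

open CoxeterSystem Pool.H8.CDW Pool.Agent.H75.INF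

variable {B W : Type*} [Group W] {M : CoxeterMatrix B}

/-- `u` is a prefix of `w` -/
def Pf (cs : CoxeterSystem M W) (u w : W) : Prop := cs.length u + cs.length (u⁻¹ * w) = cs.length w

variable {cs : CoxeterSystem M W}

theorem pf_one (w : W) : Pf cs 1 w := by
  unfold Pf
  rw [cs.length_one, inv_one, one_mul, zero_add]

theorem pf_refl (w : W) : Pf cs w w := by
  unfold Pf
  rw [inv_mul_cancel, cs.length_one, add_zero]

theorem pf_mul_iff {u x : W} : Pf cs u (u * x) ↔ cs.length (u * x) = cs.length u + cs.length x := by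
  unfold Pf
  rw [inv_mul_cancel_left]
  exact eq_comm

theorem Pf.le {u w : W} (h : Pf cs u w) : cs.length u ≤ cs.length w := by
  unfold Pf at h
  omega

theorem Pf.eq_of_le {u w : W} (h : Pf cs u w) (h1 : cs.length w ≤ cs.length u) : u = w := by
  unfold Pf at h
  have h2 : cs.length (u⁻¹ * w) = 0 := by omega
  rw [cs.length_eq_zero_iff, inv_mul_eq_one] at h2
  exact h2

theorem Pf.antisymm {u w : W} (h : Pf cs u w) (h' : Pf cs w u) : u = w := h.eq_of_le h'.le

theorem len_le (u v w : W) : cs.length (u⁻¹ * w) ≤ cs.length (u⁻¹ * v) + cs.length (v⁻¹ * w) := by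
  have h := cs.length_mul_le (u⁻¹ * v) (v⁻¹ * w)
  have e : u⁻¹ * v * (v⁻¹ * w) = u⁻¹ * w := by group
  rwa [e] at h

theorem len_sub (u w : W) : cs.length w ≤ cs.length u + cs.length (u⁻¹ * w) := by
  have h := cs.length_mul_le u (u⁻¹ * w)
  rwa [mul_inv_cancel_left] at h

theorem Pf.trans {u v w : W} (h : Pf cs u v) (h' : Pf cs v w) : Pf cs u w := by
  have h1 := len_le (cs := cs) u v w
  have h2 := len_sub (cs := cs) u w
  unfold Pf at h h' ⊢
  omega

/-- the remainders of a chain of prefixes -/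
theorem Pf.split {u v w : W} (h : Pf cs u v) (h' : Pf cs v w) :
    cs.length (u⁻¹ * w) = cs.length (u⁻¹ * v) + cs.length (v⁻¹ * w) := by
  have h1 := h.trans h'
  unfold Pf at h h' h1
  omega

theorem Pf.rest {u v w : W} (h : Pf cs u v) (h' : Pf cs v w) : Pf cs (u⁻¹ * v) (u⁻¹ * w) := by
  have h1 := h.split h'
  unfold Pf
  have e : (u⁻¹ * v)⁻¹ * (u⁻¹ * w) = v⁻¹ * w := by group
  rw [e, h1]

/-- prefixes of a reduced product -/
theorem pf_mul_left {u v w : W} (hv : cs.length (u * v) = cs.length u + cs.length v)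
    (hw : cs.length (u * w) = cs.length u + cs.length w) : Pf cs (u * v) (u * w) ↔ Pf cs v w := by
  unfold Pf
  have e : (u * v)⁻¹ * (u * w) = v⁻¹ * w := by group
  rw [e, hv, hw]
  omega

/-- a prefix of the second factor gives a reduced product -/
theorem add_of_pf {y v w : W} (h : Pf cs v w) (hw : cs.length (y * w) = cs.length y + cs.length w) :
    cs.length (y * v) = cs.length y + cs.length v := by
  have h1 := cs.length_mul_le y v
  have h2 := cs.length_mul_le (y * v) (v⁻¹ * w)
  have e : y * v * (v⁻¹ * w) = y * w := by group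
  rw [e] at h2
  unfold Pf at h
  omega

/-- the first letter of the remainder -/
theorem exists_letter {v a : W} (h : Pf cs v a) (hne : v ≠ a) :
    ∃ s, cs.length (v * cs.simple s) = cs.length v + 1 ∧ Pf cs (v * cs.simple s) a := by
  have hx : v⁻¹ * a ≠ 1 := fun h1 => hne (inv_mul_eq_one.1 h1)
  obtain ⟨s, hs⟩ := cs.exists_leftDescent_of_ne_one hx
  rw [cs.isLeftDescent_iff] at hs
  have e : cs.simple s * (v⁻¹ * a) = (v * cs.simple s)⁻¹ * a := by
    rw [mul_inv_rev, cs.inv_simple, mul_assoc]
  rw [e] at hs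
  have h1 := len_sub (cs := cs) (v * cs.simple s) a
  have h2 := cs.length_mul_le v (cs.simple s)
  rw [cs.length_simple] at h2
  unfold Pf at h ⊢
  exact ⟨s, by omega, by omega⟩

theorem pf_letter {v : W} {s : B} (h : cs.length (v * cs.simple s) = cs.length v + 1) :
    Pf cs v (v * cs.simple s) := by
  rw [pf_mul_iff, h, cs.length_simple]

/-- the alternating words are reduced -/
theorem alt_reduced {i j : B} (hij : i ≠ j) (hM : M i j ≠ 0) : ∀ p : ℕ, p ≤ M i j →
    cs.IsReduced (alternatingWord i j p) ∧ cs.IsReduced (alternatingWord j i p) := by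
  have key : ∀ (i j : B) (p : ℕ), i ≠ j → M i j ≠ 0 → p + 1 ≤ M i j → cs.IsReduced (alternatingWord j i p) →
      cs.IsReduced (alternatingWord i j (p + 1)) := by
    intro i j p hij hM hp hred
    have e1 : cs.wordProd (alternatingWord i j (p + 1)) = cs.wordProd (alternatingWord j i p) * cs.simple j := by
      rw [alternatingWord_succ, cs.wordProd_concat]
    have hl : cs.length (cs.wordProd (alternatingWord j i p)) = p := by
      rw [hred.eq, length_alternatingWord]
    unfold CoxeterSystem.IsReduced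
    rw [e1, length_alternatingWord]
    rcases cs.length_mul_simple (cs.wordProd (alternatingWord j i p)) j with h | h
    · rw [h, hl]
    · exfalso
      have hd : cs.IsRightDescent (cs.wordProd (alternatingWord j i p)) j := by
        rw [cs.isRightDescent_iff]
        exact h
      have hmem : cs.wordProd (alternatingWord j i p) ∈ par cs ({i, j} : Set B) := by
        refine d2_prod_mem cs _ ?_
        intro k hk
        rcases d2_mem_alt j i p k hk with rfl | rfl
        · exact Or.inr rfl
        · exact Or.inl rfl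
      obtain ⟨h1, -⟩ := d1_word cs hmem hd
      rw [hl] at h1
      obtain ⟨h2, -⟩ := d1_pow cs h1.symm
      have hp0 : 0 < p := by
        rw [hl] at h
        omega
      exact pow_ne_one cs hij hp0 (by omega) h2
  intro p
  induction p with
  | zero =>
    intro _
    constructor
    · unfold CoxeterSystem.IsReduced
      simp [alternatingWord]
    · unfold CoxeterSystem.IsReduced
      simp [alternatingWord]
  | succ p ih =>
    intro hp
    obtain ⟨h1, h2⟩ := ih (by omega)
    have hs : M j i = M i j := M.symmetric j i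
    exact ⟨key i j p hij hM hp h2, key j i p hij.symm (by rwa [hs]) (by rwa [hs]) h1⟩

/-- the longest element `w_ij` -/
def wb (cs : CoxeterSystem M W) (i j : B) : W := cs.wordProd (braidWord M i j)

theorem wb_len {i j : B} (hij : i ≠ j) (hM : M i j ≠ 0) : cs.length (wb cs i j) = M i j := by
  have h := (alt_reduced (cs := cs) hij hM (M i j) le_rfl).1
  have h1 := h.eq
  rw [length_alternatingWord] at h1
  exact h1

theorem wb_mem (i j : B) : wb cs i j ∈ par cs ({i, j} : Set B) := by
  refine d2_prod_mem cs _ ?_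
  intro k hk
  rcases d2_mem_alt i j _ k hk with rfl | rfl
  · exact Or.inl rfl
  · exact Or.inr rfl

theorem wb_symm (i j : B) : wb cs i j = wb cs j i := cs.wordProd_braidWord_eq i j

/-- `w_ij` begins with `j` or `i`: both are left descents -/
theorem wb_left {i j : B} (hij : i ≠ j) (hM : M i j ≠ 0) : cs.IsLeftDescent (wb cs i j) i := by
  have hs : M j i = M i j := M.symmetric j i
  obtain ⟨k, hk⟩ : ∃ k, M i j = k + 1 := ⟨M i j - 1, by omega⟩
  have h : ∀ a b : B, cs.IsReduced (alternatingWord a b (k + 1)) →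
      cs.IsLeftDescent (cs.wordProd (alternatingWord a b (k + 1))) (if Even k then b else a) := by
    intro a b hr
    rw [alternatingWord_succ'] at hr ⊢
    exact d2_left cs hr
  have h1 := alt_reduced (cs := cs) hij hM (M i j) le_rfl
  rw [hk] at h1
  by_cases he : Even k
  · have h2 := h j i h1.2
    rw [if_pos he] at h2
    rw [wb_symm]
    unfold wb braidWord
    rw [hs, hk]
    exact h2
  · have h2 := h i j h1.1
    rw [if_neg he] at h2
    unfold wb braidWord
    rw [hk]
    exact h2

/-- the join of `v s` and `v t` -/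
theorem join_wb {v w : W} {s t : B} (hst : s ≠ t) (h1 : Pf cs (v * cs.simple s) w)
    (h2 : Pf cs (v * cs.simple t) w) (hs : cs.length (v * cs.simple s) = cs.length v + 1)
    (ht : cs.length (v * cs.simple t) = cs.length v + 1) :
    M s t ≠ 0 ∧ Pf cs (v * wb cs s t) w ∧ cs.length (v * wb cs s t) = cs.length v + M s t := by
  have hv : Pf cs v w := (pf_letter hs).trans h1
  have key : ∀ r : B, Pf cs (v * cs.simple r) w → cs.length (v * cs.simple r) = cs.length v + 1 →
      cs.IsLeftDescent (v⁻¹ * w) r := by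
    intro r hr hr'
    have e : cs.simple r * (v⁻¹ * w) = (v * cs.simple r)⁻¹ * w := by
      rw [mul_inv_rev, cs.inv_simple, mul_assoc]
    unfold CoxeterSystem.IsLeftDescent
    rw [e]
    unfold Pf at hr hv
    omega
  have ds := key s h1 hs
  have dt := key t h2 ht
  have hM := ne_zero_of_descents cs hst ds dt
  obtain ⟨u, hu1, hu2⟩ := two_descents cs hst hM ds dt
  have hu1' : v⁻¹ * w = wb cs s t * u := hu1
  have e : (v * wb cs s t)⁻¹ * w = u := by
    rw [mul_inv_rev, mul_assoc, hu1', inv_mul_cancel_left]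
  have h3 := cs.length_mul_le v (wb cs s t)
  rw [wb_len hst hM] at h3
  have h4 := len_sub (cs := cs) (v * wb cs s t) w
  rw [e] at h4
  refine ⟨hM, ?_, ?_⟩
  · unfold Pf at hv ⊢
    rw [e]
    omega
  · unfold Pf at hv
    omega

theorem add_wb {x : W} {s t : B} (hst : s ≠ t) (hM : M s t ≠ 0)
    (hs : cs.length (x * cs.simple s) = cs.length x + 1)
    (ht : cs.length (x * cs.simple t) = cs.length x + 1) :
    cs.length (x * wb cs s t) = cs.length x + M s t := by
  have hmin : IsMin cs ({s, t} : Set B) x := by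
    intro j hj hd
    unfold CoxeterSystem.IsRightDescent at hd
    rcases hj with hj | hj
    · rw [hj] at hd
      omega
    · have hj' : j = t := hj
      rw [hj'] at hd
      omega
  rw [length_add cs hmin (wb_mem s t), wb_len hst hM]

/-- `v s` is a prefix of `v w_st` -/
theorem pf_wb {v : W} {s t : B} (hst : s ≠ t) (hM : M s t ≠ 0)
    (hs : cs.length (v * cs.simple s) = cs.length v + 1)
    (hl : cs.length (v * wb cs s t) = cs.length v + M s t) : Pf cs (v * cs.simple s) (v * wb cs s t) := by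
  have hd := wb_left (cs := cs) hst hM
  rw [cs.isLeftDescent_iff] at hd
  have e : (v * cs.simple s)⁻¹ * (v * wb cs s t) = cs.simple s * wb cs s t := by
    rw [mul_inv_rev, cs.inv_simple]
    group
  rw [wb_len hst hM] at hd
  unfold Pf
  rw [e, hs, hl]
  omega

/-- **Newman's lemma**. -/
theorem exists_top {E : W → Prop} (h1 : E 1) (hpf : ∀ u w, Pf cs u w → E w → E u) {K : ℕ}
    (hK : ∀ w, E w → cs.length w ≤ K)
    (hj : ∀ v s t, s ≠ t → E (v * cs.simple s) → E (v * cs.simple t) →
      cs.length (v * cs.simple s) = cs.length v + 1 → cs.length (v * cs.simple t) = cs.length v + 1 →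
      M s t ≠ 0 ∧ E (v * wb cs s t) ∧ cs.length (v * wb cs s t) = cs.length v + M s t) :
    ∃ m, E m ∧ ∀ w, E w → Pf cs w m := by
  have key : ∀ n v, E v → K ≤ cs.length v + n → ∀ a b, E a → E b → Pf cs v a → Pf cs v b →
      ∃ c, E c ∧ Pf cs a c ∧ Pf cs b c := by
    intro n
    induction n with
    | zero =>
      intro v hv hn a b ha hb hva hvb
      have e1 : v = a := hva.eq_of_le (by have := hK a ha; omega)
      have e2 : v = b := hvb.eq_of_le (by have := hK b hb; omega)
      exact ⟨v, hv, e1 ▸ pf_refl _, e2 ▸ pf_refl _⟩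
    | succ n ih =>
      intro v hv hn a b ha hb hva hvb
      by_cases e1 : v = a
      · exact ⟨b, hb, e1 ▸ hvb, pf_refl _⟩
      by_cases e2 : v = b
      · exact ⟨a, ha, pf_refl _, e2 ▸ hva⟩
      obtain ⟨s, hs, hsa⟩ := exists_letter hva e1
      obtain ⟨t, ht, htb⟩ := exists_letter hvb e2
      have hEs := hpf _ _ hsa ha
      have hEt := hpf _ _ htb hb
      by_cases hst : s = t
      · subst hst
        exact ih _ hEs (by omega) a b ha hb hsa htb
      obtain ⟨hM, hE, hl⟩ := hj v s t hst hEs hEt hs ht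
      have hs' : M t s = M s t := M.symmetric t s
      have p1 := pf_wb hst hM hs hl
      have p2 : Pf cs (v * cs.simple t) (v * wb cs s t) := by
        have := pf_wb (cs := cs) (v := v) (Ne.symm hst) (by rwa [hs']) ht (by rw [wb_symm, hs']; exact hl)
        rwa [wb_symm] at this
      obtain ⟨c1, hc1, q1, q2⟩ := ih _ hEs (by omega) a _ ha hE hsa p1
      obtain ⟨c2, hc2, q3, q4⟩ := ih _ hEt (by omega) b _ hb hE htb p2
      have hM2 : 1 ≤ M s t := Nat.one_le_iff_ne_zero.2 hM
      obtain ⟨c, hc, q5, q6⟩ := ih _ hE (by omega) c1 c2 hc1 hc2 q2 q4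
      exact ⟨c, hc, q1.trans q5, q3.trans q6⟩
  classical
  -- an element of maximal length
  obtain ⟨m, hm, hmax⟩ : ∃ m, E m ∧ ∀ w, E w → cs.length w ≤ cs.length m := by
    by_contra hcon
    push Not at hcon
    have : ∀ n, ∃ w, E w ∧ n ≤ cs.length w := by
      intro n
      induction n with
      | zero => exact ⟨1, h1, Nat.zero_le _⟩
      | succ n ih =>
        obtain ⟨w, hw, hn⟩ := ih
        obtain ⟨w', hw', hn'⟩ := hcon w hw
        exact ⟨w', hw', by omega⟩
    obtain ⟨w, hw, hn⟩ := this (K + 1)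
    have := hK w hw
    omega
  refine ⟨m, hm, fun w hw => ?_⟩
  obtain ⟨c, hc, h2, h3⟩ := key K 1 h1 (by omega) w m hw hm (pf_one _) (pf_one _)
  have h4 := h3.eq_of_le (hmax c hc)
  rw [h4]
  exact h2

theorem exists_mx (cs : CoxeterSystem M W) (y w : W) : ∃ m, (Pf cs m w ∧ cs.length (y * m) = cs.length y + cs.length m) ∧
    ∀ v, (Pf cs v w ∧ cs.length (y * v) = cs.length y + cs.length v) → Pf cs v m := by
  refine exists_top (cs := cs) (E := fun v => Pf cs v w ∧ cs.length (y * v) = cs.length y + cs.length v)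
    (K := cs.length w) ⟨pf_one w, by rw [mul_one, cs.length_one, add_zero]⟩ ?_ (fun v hv => hv.1.le) ?_
  · rintro u v huv ⟨h1, h2⟩
    exact ⟨huv.trans h1, add_of_pf huv h2⟩
  · rintro v s t hst ⟨h1, h2⟩ ⟨h3, h4⟩ hs ht
    obtain ⟨hM, h5, h6⟩ := join_wb hst h1 h3 hs ht
    have hv := add_of_pf (pf_letter hs) h2
    rw [← mul_assoc] at h2 h4
    have h7 := add_wb (cs := cs) (x := y * v) hst hM (by omega) (by omega)
    refine ⟨hM, ⟨h5, ?_⟩, h6⟩
    rw [← mul_assoc, h7, h6]
    omega

/-- the longest prefix `v` of `w` such that `y v` is reduced -/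
noncomputable def mx (cs : CoxeterSystem M W) (y w : W) : W := (exists_mx cs y w).choose

theorem mx_pf (y w : W) : Pf cs (mx cs y w) w := (exists_mx cs y w).choose_spec.1.1

theorem mx_len (y w : W) : cs.length (y * mx cs y w) = cs.length y + cs.length (mx cs y w) :=
  (exists_mx cs y w).choose_spec.1.2

theorem mx_max {y w v : W} (h : Pf cs v w) (h' : cs.length (y * v) = cs.length y + cs.length v) :
    Pf cs v (mx cs y w) := (exists_mx cs y w).choose_spec.2 v ⟨h, h'⟩

theorem mx_one_left (w : W) : mx cs 1 w = w :=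
  (mx_pf 1 w).antisymm (mx_max (pf_refl w) (by rw [one_mul, cs.length_one, zero_add]))

theorem mx_one_right (y : W) : mx cs y 1 = 1 := by
  have h := (mx_pf (cs := cs) y 1).le
  rw [cs.length_one] at h
  exact cs.length_eq_zero_iff.1 (by omega)

/-- `y ↦ (w ↦ y * mx y w)` respects the reduced products -/
theorem mx_mul {y₁ y₂ : W} (h : cs.length (y₁ * y₂) = cs.length y₁ + cs.length y₂) (w : W) :
    mx cs y₁ (y₂ * mx cs y₂ w) = y₂ * mx cs (y₁ * y₂) w := by
  obtain ⟨v₁, e1⟩ : ∃ v, v = mx cs y₂ w := ⟨_, rfl⟩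
  obtain ⟨z, e2⟩ : ∃ v, v = mx cs y₁ (y₂ * v₁) := ⟨_, rfl⟩
  obtain ⟨v₂, e3⟩ : ∃ v, v = mx cs (y₁ * y₂) w := ⟨_, rfl⟩
  rw [← e1, ← e2, ← e3]
  have p1 : Pf cs v₁ w := by rw [e1]; exact mx_pf _ _
  have l1 : cs.length (y₂ * v₁) = cs.length y₂ + cs.length v₁ := by rw [e1]; exact mx_len _ _
  have p2 : Pf cs z (y₂ * v₁) := by rw [e2]; exact mx_pf _ _
  have l2 : cs.length (y₁ * z) = cs.length y₁ + cs.length z := by rw [e2]; exact mx_len _ _
  have p3 : Pf cs v₂ w := by rw [e3]; exact mx_pf _ _
  have l3 : cs.length (y₁ * y₂ * v₂) = cs.length (y₁ * y₂) + cs.length v₂ := by rw [e3]; exact mx_len _ _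
  rw [mul_assoc] at l3
  have l4 : cs.length (y₂ * v₂) = cs.length y₂ + cs.length v₂ := by
    have a1 := cs.length_mul_le y₁ (y₂ * v₂)
    have a2 := cs.length_mul_le y₂ v₂
    omega
  have q1 : Pf cs v₂ v₁ := by rw [e1]; exact mx_max p3 l4
  have q2 : Pf cs (y₂ * v₂) (y₂ * v₁) := (pf_mul_left l4 l1).2 q1
  have q3 : Pf cs (y₂ * v₂) z := by rw [e2]; exact mx_max q2 (by omega)
  have q4 : Pf cs y₂ z := by rw [e2]; exact mx_max (pf_mul_iff.2 l1) h
  obtain ⟨v₃, rfl⟩ : ∃ v, z = y₂ * v := ⟨y₂⁻¹ * z, by rw [mul_inv_cancel_left]⟩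
  have l5 : cs.length (y₂ * v₃) = cs.length y₂ + cs.length v₃ := pf_mul_iff.1 q4
  have q5 : Pf cs v₃ v₁ := (pf_mul_left l5 l1).1 p2
  have q6 : Pf cs v₃ v₂ := by
    rw [e3]
    refine mx_max (q5.trans p1) ?_
    rw [mul_assoc, l2, h, l5]
    omega
  have q7 : Pf cs v₂ v₃ := (pf_mul_left l4 l5).1 q3
  rw [q6.antisymm q7]

end Pool.Agent.H2.SPH
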