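import Pool.Agent.H2.SPH.Zyk

/-!
# [H2 SPH] No 4-cycles in Artin groups of finite type

`no_four`: `M b c ≥ 3`, the Coxeter group finite; `y x' = x y'` with `x, x'` in the parabolic subgroup without `b` and `y, y'` in the parabolic
subgroup without `c` is possible only if `x` or `y` is in the parabolic subgroup without `b` and `c`.

Proof. `x = u v⁻¹`, `x' = u₂ v₂⁻¹`, `u = uR u'` and so on; `uR⁻¹ y wR = g⁻¹ h` reduced, then `u⁻¹ y u₂ = (g u')⁻¹ (h w')` is reduced (`klem`); the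
same for `v⁻¹ y' v₂ = (k v')⁻¹ (l z')`. These are equal, so `g u' = k v'`, `g = k`, `u' = v'` (`ylem`) and `x = uR vR⁻¹`.
-/

set_option autoImplicit false

namespace Pool.Agent.H2.SPH

open CoxeterSystem Pool.H8.CDW Pool.Agent.H52.PAG Pool.Agent.H75.INF

variable {B : Type} {M : CoxeterMatrix B} {W : Type*} [Group W] [Finite W] (cs : CoxeterSystem M W) {b c : B}

private theorem compl_inter (b c : B) : ({b}ᶜ : Set B) ∩ ({c}ᶜ : Set B) = ({b, c}ᶜ : Set B) := by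
  ext t
  simp only [Set.mem_inter_iff, Set.mem_compl_iff, Set.mem_singleton_iff, Set.mem_insert_iff, not_or]

include cs in
theorem no_four (hm : 3 ≤ M b c) {x x' y y' : Art M} (hx : x ∈ ap M ({b}ᶜ : Set B))
    (hx' : x' ∈ ap M ({b}ᶜ : Set B)) (hy : y ∈ ap M ({c}ᶜ : Set B)) (hy' : y' ∈ ap M ({c}ᶜ : Set B))
    (h : y * x' = x * y') : x ∈ ap M ({b, c}ᶜ : Set B) ∨ y ∈ ap M ({b, c}ᶜ : Set B) := by
  by_cases hyR : y ∈ ap M ({b, c}ᶜ : Set B)
  · exact Or.inr hyR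
  left
  have hRX : ({b, c}ᶜ : Set B) ⊆ ({b}ᶜ : Set B) := by
    rw [← compl_inter]
    exact Set.inter_subset_left
  have hRY : ({b, c}ᶜ : Set B) ⊆ ({c}ᶜ : Set B) := by
    rw [← compl_inter]
    exact Set.inter_subset_right
  have hy'R : y' ∉ ap M ({b, c}ᶜ : Set B) := by
    intro h1
    apply hyR
    have h2 : y = x * y' * x'⁻¹ := by rw [← h, mul_inv_cancel_right]
    rw [← compl_inter]
    refine ap_inf' cs ?_ hy
    rw [h2]
    exact mul_mem (mul_mem hx (ap_mono hRX h1)) (inv_mem hx')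
  -- no left letters except `c`
  have hnl : ∀ {v : AM M}, InX ({b}ᶜ : Set B) v → (∀ t ∈ ({b, c}ᶜ : Set B), ¬ ag M t ∣ v) →
      ∀ t, t ≠ c → ¬ ag M t ∣ v := by
    intro v hv h1 t ht h2
    have h3 : t ∈ ({b}ᶜ : Set B) := inX_ag.1 (inX_of_dvd h2 hv)
    refine h1 t ?_ h2
    rw [← compl_inter]
    exact ⟨h3, ht⟩
  -- one side
  have side : ∀ {y : Art M} {u w : AM M}, y ∈ ap M ({c}ᶜ : Set B) → y ∉ ap M ({b, c}ᶜ : Set B) →
      InX ({b}ᶜ : Set B) u → InX ({b}ᶜ : Set B) w →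
      ∃ (r v g p q : AM M), u = r * v ∧ InX ({b, c}ᶜ : Set B) r ∧ InX ({b}ᶜ : Set B) v ∧
        (∀ t, t ≠ c → ¬ ag M t ∣ v) ∧ InX ({c}ᶜ : Set B) g ∧ p = g * v ∧
        (inc M u)⁻¹ * y * inc M w = (inc M p)⁻¹ * inc M q ∧ ∀ t, ¬ (ag M t ∣ p ∧ ag M t ∣ q) := by
    intro y u w hy hyR hu hw
    obtain ⟨r, v, rfl, hr, hv⟩ := split_left ({b, c}ᶜ : Set B) u
    obtain ⟨s, z, rfl, hs, hz⟩ := split_left ({b, c}ᶜ : Set B) w
    rw [inX_mul] at hu hw
    have hyy : (inc M r)⁻¹ * y * inc M s ∈ ap M ({c}ᶜ : Set B) :=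
      mul_mem (mul_mem (inv_mem (ap_mono hRY (inc_mem hr))) hy) (ap_mono hRY (inc_mem hs))
    obtain ⟨g, k, hg, hk, hgk, hred⟩ := frac_red cs hyy
    refine ⟨r, v, g, g * v, k * z, rfl, hr, hu.2, hnl hu.2 hv, hg, rfl, ?_, ?_⟩
    · rw [map_mul, map_mul, map_mul, map_mul]
      have e1 : (inc M r * inc M v)⁻¹ * y * (inc M s * inc M z) =
          (inc M v)⁻¹ * ((inc M r)⁻¹ * y * inc M s) * inc M z := by group
      rw [e1, hgk]
      group
    · refine klem cs hm hg hk hu.2 hw.2 (hnl hu.2 hv) (hnl hw.2 hz) hred ?_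
      rintro ⟨h1, h2⟩
      apply hyR
      have h3 : (inc M r)⁻¹ * y * inc M s ∈ ap M ({b, c}ᶜ : Set B) := by
        rw [hgk, ← compl_inter]
        exact mul_mem (inv_mem (inc_mem (inX_inter h1 hg))) (inc_mem (inX_inter h2 hk))
      have h4 : y = inc M r * ((inc M r)⁻¹ * y * inc M s) * (inc M s)⁻¹ := by group
      rw [h4]
      exact mul_mem (mul_mem (inc_mem hr) h3) (inv_mem (inc_mem hs))
  obtain ⟨u, v, hu, hv, rfl⟩ := frac_right cs hx
  obtain ⟨u₂, v₂, hu₂, hv₂, rfl⟩ := frac_right cs hx'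
  obtain ⟨r, u', g, p, q, e1, a1, a2, a3, a4, e2, e3, a5⟩ := side hy hyR hu hu₂
  obtain ⟨s, v', k, p', q', f1, b1, b2, b3, b4, f2, f3, b5⟩ := side hy' hy'R hv hv₂
  have hmain : (inc M u)⁻¹ * y * inc M u₂ = (inc M v)⁻¹ * y' * inc M v₂ := by
    have h1 : y * inc M u₂ = inc M u * (inc M v)⁻¹ * y' * inc M v₂ := by
      rw [← h]
      group
    rw [mul_assoc, h1]
    group
  rw [e3, f3] at hmain
  obtain ⟨h1, -⟩ := frac_uniq cs hmain a5 b5
  rw [e2, f2] at h1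
  have h2 : g ∣ k := ylem cs b3 b4 a4 (by rw [← h1]; exact Dvd.intro _ rfl)
  have h3 : k ∣ g := ylem cs a3 a4 b4 (by rw [h1]; exact Dvd.intro _ rfl)
  have h4 := dvd_antisymm_am h2 h3
  subst h4
  have h5 := am_left_cancel cs h1
  rw [e1, f1, h5, map_mul, map_mul, mul_inv_rev]
  have e4 : inc M r * inc M v' * ((inc M v')⁻¹ * (inc M s)⁻¹) = inc M r * (inc M s)⁻¹ := by group
  rw [e4]
  exact mul_mem (inc_mem a1) (inv_mem (inc_mem b1))

end Pool.Agent.H2.SPH
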