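import Pool.Agent.H2.SPH.Frc

/-!
# [H2 SPH] Left divisors of products `g u`

`g` has no letter `c`, `u` has no letter `b`, `M b c ≥ 3`. `zlem`: if `c` divides `g u` then `g` has no letter `b`. `ylem`: if `u` has no left
letter except possibly `c` then the left divisors without the letter `c` of `g u` divide `g`.
-/

set_option autoImplicit false

namespace Pool.Agent.H2.SPH

open CoxeterSystem Pool.H8.CDW Pool.Agent.H52.PAG Pool.Agent.H75.INF

variable {B W : Type*} [Group W] {M : CoxeterMatrix B} (cs : CoxeterSystem M W) {b c : B}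

include cs in
/-- a second letter which divides `ag f * g` -/
theorem braid_tail {f t : B} (hft : f ≠ t) {g : AM M} (h : ag M t ∣ ag M f * g) :
    ∃ k, M f t = k + 2 ∧ alt (ag M t) (ag M f) (k + 1) ∣ g := by
  obtain ⟨hM, h1⟩ := braid_dvd cs hft (Dvd.intro _ rfl : ag M f ∣ ag M f * g) h
  have h2 := M.off_diagonal f t hft
  have h3 : M.M f t = M f t := rfl
  obtain ⟨k, hk⟩ : ∃ k, M f t = k + 2 := ⟨M f t - 2, by omega⟩
  refine ⟨k, hk, ?_⟩
  have hk' : M.M f t = k + 2 := hk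
  rw [hk'] at h1
  exact dvd_cancel cs (g := ag M f) h1

include cs in
theorem zlem (hm : 3 ≤ M b c) {g u : AM M} (hg : InX ({c}ᶜ : Set B) g) (hu : InX ({b}ᶜ : Set B) u)
    (h : ag M c ∣ g * u) : InX ({b}ᶜ : Set B) g := by
  induction g using am_ind with
  | h1 => exact inX_one _
  | h f g ih =>
    rw [inX_mul, inX_ag] at hg
    rw [mul_assoc] at h
    obtain ⟨k, hk, h1⟩ := braid_tail cs (fun e => hg.1 e) h
    have h2 : ag M c ∣ g * u := (Dvd.intro _ rfl : ag M c ∣ ag M c * alt (ag M f) (ag M c) k).trans h1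
    have h3 := ih hg.2 h2
    refine inX_mul.2 ⟨inX_ag.2 ?_, h3⟩
    intro hfb
    have hfb' : f = b := hfb
    subst hfb'
    obtain ⟨l, rfl⟩ : ∃ l, k = l + 1 := ⟨k - 1, by omega⟩
    have h4 : InX ({f}ᶜ : Set B) (alt (ag M c) (ag M f) (l + 1 + 1)) := inX_of_dvd h1 (inX_mul.2 ⟨h3, hu⟩)
    have h5 : alt (ag M c) (ag M f) (l + 1 + 1) = ag M c * (ag M f * alt (ag M c) (ag M f) l) := rfl
    rw [h5, inX_mul, inX_mul, inX_ag] at h4
    exact inX_ag.1 h4.2.1 rfl

include cs in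
theorem ylem_aux {u : AM M} (hu : ∀ t, t ≠ c → ¬ ag M t ∣ u) : ∀ (n : ℕ) (g w : AM M), ln g ≤ n →
    InX ({c}ᶜ : Set B) g → InX ({c}ᶜ : Set B) w → w ∣ g * u → w ∣ g := by
  intro n
  induction n with
  | zero =>
    intro g w hn hg hw h
    have hg1 : g = 1 := ln_eq_zero (by omega)
    subst hg1
    rw [one_mul] at h
    by_cases hw1 : w = 1
    · rw [hw1]
    exfalso
    obtain ⟨t, v, rfl⟩ := exists_ag_of_ne hw1
    rw [inX_mul, inX_ag] at hw
    exact hu t hw.1 ((Dvd.intro _ rfl : ag M t ∣ ag M t * v).trans h)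
  | succ n ih =>
    intro g w hn hg hw h
    by_cases hw1 : w = 1
    · rw [hw1]
      exact one_dvd _
    obtain ⟨t, v, rfl⟩ := exists_ag_of_ne hw1
    rw [inX_mul, inX_ag] at hw
    have ht : ag M t ∣ g * u := (Dvd.intro _ rfl : ag M t ∣ ag M t * v).trans h
    have htg : ag M t ∣ g := by
      by_cases hg1 : g = 1
      · subst hg1
        rw [one_mul] at ht
        exact absurd ht (hu t hw.1)
      obtain ⟨f, g2, rfl⟩ := exists_ag_of_ne hg1
      rw [inX_mul, inX_ag] at hg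
      rw [ln_mul, ln_ag] at hn
      by_cases hft : f = t
      · rw [hft]
        exact Dvd.intro _ rfl
      rw [mul_assoc] at ht
      obtain ⟨k, hk, h1⟩ := braid_tail cs hft ht
      have h2 := ih g2 _ (by omega) hg.2 (inX_alt hw.1 hg.1) h1
      have h3 : ag M f * alt (ag M t) (ag M f) (k + 1) ∣ ag M f * g2 := dvd_mul_of_dvd h2
      have h4 : ag M f * alt (ag M t) (ag M f) (k + 1) = alt (ag M f) (ag M t) (M f t) := by
        rw [hk]
        rfl
      rw [h4, ag_rel (by omega), hk] at h3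
      exact (Dvd.intro _ rfl : ag M t ∣ ag M t * alt (ag M f) (ag M t) (k + 1)).trans h3
    obtain ⟨g3, rfl⟩ := htg
    rw [ln_mul, ln_ag] at hn
    rw [mul_assoc] at h
    exact dvd_mul_of_dvd (ih g3 v (by omega) (inX_mul.1 hg).2 hw.2 (dvd_cancel cs h))

include cs in
theorem ylem {u : AM M} (hu : ∀ t, t ≠ c → ¬ ag M t ∣ u) {g w : AM M} (hg : InX ({c}ᶜ : Set B) g)
    (hw : InX ({c}ᶜ : Set B) w) (h : w ∣ g * u) : w ∣ g := ylem_aux cs hu (ln g) g w le_rfl hg hw h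

include cs in
/-- `g u` and `h w` have no common left letter -/
theorem klem (hm : 3 ≤ M b c) {g h u w : AM M} (hg : InX ({c}ᶜ : Set B) g) (hh : InX ({c}ᶜ : Set B) h)
    (hu : InX ({b}ᶜ : Set B) u) (hw : InX ({b}ᶜ : Set B) w) (hu' : ∀ t, t ≠ c → ¬ ag M t ∣ u)
    (hw' : ∀ t, t ≠ c → ¬ ag M t ∣ w) (hgh : ∀ t, ¬ (ag M t ∣ g ∧ ag M t ∣ h))
    (hne : ¬ (InX ({b}ᶜ : Set B) g ∧ InX ({b}ᶜ : Set B) h)) (t : B) : ¬ (ag M t ∣ g * u ∧ ag M t ∣ h * w) := by
  rintro ⟨h1, h2⟩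
  by_cases ht : t = c
  · subst ht
    exact hne ⟨zlem cs hm hg hu h1, zlem cs hm hh hw h2⟩
  · have hin : InX ({c}ᶜ : Set B) (ag M t) := inX_ag.2 ht
    exact hgh t ⟨ylem cs hu' hg hin h1, ylem cs hw' hh hin h2⟩

end Pool.Agent.H2.SPH
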